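import Mathlib

set_option autoImplicit false
open Finset Filter Topology Classical

namespace Pool.Agent.Results.MP_a018d0_co.Upper

/-- g n r s is the largest m such that in every r-edge colouring of K_n some s colours cover at
least m vertices. -/
noncomputable def g (n r s : ℕ) : ℕ :=
  sSup {m | ∀ c : Sym2 (Fin n) → Fin r, ∃ S : Finset (Fin r), S.card = s ∧
    m ≤ (univ.filter fun v => ∃ u, u ≠ v ∧ c s(u, v) ∈ S).card}

theorem comb (n r s q m : ℕ) (hr : q * q * m ≤ r) (hs : 8 * s ≤ q * m) (hm : 0 < m) (hq : 0 < q)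
    (hn : q * q * 2 ^ m ≤ n) : 2 ^ (m + 2) * g n r s + n ≤ 2 ^ (m + 2) * n := by
  let Ty := (Fin q × Fin q) × Finset (Fin m)
  have hN : Fintype.card Ty = q * q * 2 ^ m := by simp [Ty]
  obtain ⟨ι⟩ : Nonempty ((Fin q × Fin q) × Fin m ↪ Fin r) :=
    Function.Embedding.nonempty_of_card_le (by simpa using hr)
  obtain ⟨κ⟩ : Nonempty (Ty × Fin (n / (q * q * 2 ^ m)) ↪ Fin n) :=
    Function.Embedding.nonempty_of_card_le (by
      simp only [Fintype.card_prod, hN, Fintype.card_fin]; exact Nat.mul_div_le _ _)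
  have hk : 0 < n / (q * q * 2 ^ m) := Nat.div_pos hn (by positivity)
  have : Nonempty (Ty × Fin (n / (q * q * 2 ^ m))) := ⟨(((⟨0, hq⟩, ⟨0, hq⟩), ∅), ⟨0, hk⟩)⟩
  let ty : Fin n → Ty := fun v => (Function.invFun κ v).1
  let B : Fin n → Finset (Fin m) := fun v => if m < 2 * (ty v).2.card then (ty v).2 else univ
  have hB : ∀ v, m < 2 * (B v).card := fun v => by
    simp only [B]; split_ifs with h
    · exact h
    · simp; omega
  have hc : ∀ e : Sym2 (Fin n), ∃ x : (Fin q × Fin q) × Fin m, ∀ v ∈ e,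
      (x.1.1 = (ty v).1.1 ∨ x.1.2 = (ty v).1.2) ∧ x.2 ∈ B v := by
    intro e
    induction e using Sym2.ind with
    | _ u v =>
    obtain ⟨b, hb⟩ : (B u ∩ B v).Nonempty := by
      have h1 := card_union_add_card_inter (B u) (B v)
      have h2 := card_le_univ (B u ∪ B v)
      have := hB u; have := hB v
      rw [Fintype.card_fin] at h2
      exact card_pos.mp (by omega)
    refine ⟨(((ty u).1.1, (ty v).1.2), b), fun w hw => ?_⟩
    rcases Sym2.mem_iff.mp hw with rfl | rfl
    · exact ⟨Or.inl rfl, (mem_inter.mp hb).1⟩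
    · exact ⟨Or.inr rfl, (mem_inter.mp hb).2⟩
  choose c hc using hc
  have key : g n r s + (q * q + 1) / 2 * (n / (q * q * 2 ^ m)) ≤ n := by
    have h0 : (q * q + 1) / 2 * (n / (q * q * 2 ^ m)) ≤ n :=
      le_trans (Nat.mul_le_mul_right _ (by
        have : q * q * 1 ≤ q * q * 2 ^ m := Nat.mul_le_mul_left _ Nat.one_le_two_pow
        have := Nat.mul_pos hq hq
        omega)) (Nat.mul_div_le n (q * q * 2 ^ m))
    refine Nat.add_le_of_le_sub h0 (csSup_le' fun t ht => ?_)
    obtain ⟨S, hS, h⟩ := ht fun e => ι (c e)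
    let S' := univ.filter fun x => ι x ∈ S
    have hS' : S'.card ≤ s := hS ▸ card_le_card_of_injOn ι (fun x hx => (mem_filter.mp hx).2)
      ι.injective.injOn
    let T : Fin q × Fin q → Finset (Fin m) := fun p =>
      (S'.filter fun x => x.1.1 = p.1 ∨ x.1.2 = p.2).image Prod.snd
    have h1 : ∑ p, (T p).card ≤ s * (2 * q) := by
      refine le_trans (sum_le_sum fun p _ => card_image_le) ?_
      simp only [card_filter]
      rw [sum_comm]
      refine (sum_le_card_nsmul _ _ (2 * q) fun x _ => ?_).trans (Nat.mul_le_mul_right _ hS')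
      rw [← card_filter]
      have : (univ.filter fun p : Fin q × Fin q => x.1.1 = p.1 ∨ x.1.2 = p.2) ⊆
          ({x.1.1} ×ˢ univ) ∪ (univ ×ˢ {x.1.2}) := by
        intro p hp
        simp only [mem_union, mem_product, mem_singleton, mem_univ, and_true, true_and]
        exact (mem_filter.mp hp).2.imp Eq.symm Eq.symm
      refine (card_le_card this).trans ((card_union_le _ _).trans ?_)
      simp; omega
    have h2 : (univ.filter fun p => ¬ 2 * (T p).card < m).card * m ≤ 2 * ∑ p, (T p).card := by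
      rw [mul_sum]
      exact (card_nsmul_le_sum _ _ m fun p hp => not_lt.mp (mem_filter.mp hp).2).trans
        (sum_le_sum_of_subset (filter_subset _ _))
    have h3 := card_filter_add_card_filter_not (s := univ) (fun p => 2 * (T p).card < m)
    simp only [card_univ, Fintype.card_prod, Fintype.card_fin] at h3
    have h4 : (univ.filter fun p => ¬ 2 * (T p).card < m).card * 2 ≤ q * q := by
      refine Nat.le_of_mul_le_mul_right ?_ hm
      nlinarith
    have h5 : ((univ.filter fun p => 2 * (T p).card < m) ×ˢ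
        (univ : Finset (Fin (n / (q * q * 2 ^ m))))).card ≤
        (univ.filter fun v => ¬ ∃ u, u ≠ v ∧ ι (c s(u, v)) ∈ S).card := by
      refine card_le_card_of_injOn (fun x => κ ((x.1, (T x.1)ᶜ), x.2)) ?_ ?_
      · rintro ⟨p, j⟩ hx
        have hp : 2 * (T p).card < m := by simpa using hx
        simp only [coe_filter, mem_univ, true_and, Set.mem_ofPred_eq]
        rintro ⟨u, _, hu⟩
        have e1 : ty (κ ((p, (T p)ᶜ), j)) = (p, (T p)ᶜ) := by
          simp only [ty, Function.leftInverse_invFun κ.injective _]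
        obtain ⟨a1, a2⟩ := hc s(u, κ ((p, (T p)ᶜ), j)) _ (Sym2.mem_mk_right _ _)
        simp only [B, e1] at a1 a2
        rw [if_pos (by rw [card_compl, Fintype.card_fin]; omega), mem_compl] at a2
        exact a2 (mem_image_of_mem _ (mem_filter.mpr ⟨mem_filter.mpr ⟨mem_univ _, hu⟩, a1⟩))
      · intro x _ y _ e
        have := κ.injective e
        simp only [Ty, Prod.mk.injEq] at this
        exact Prod.ext this.1.1 this.2
    have h6 := card_filter_add_card_filter_not (s := univ)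
      (fun v => ∃ u, u ≠ v ∧ ι (c s(u, v)) ∈ S)
    rw [card_product, card_univ, Fintype.card_fin] at h5
    rw [card_univ, Fintype.card_fin] at h6
    have h7 := Nat.mul_le_mul_right (n / (q * q * 2 ^ m))
      (show (q * q + 1) / 2 ≤ (univ.filter fun p => 2 * (T p).card < m).card by omega)
    omega
  have h8 := Nat.lt_mul_div_succ n (show 0 < q * q * 2 ^ m by positivity)
  have h9 : q * q ≤ 2 * ((q * q + 1) / 2) := by omega
  generalize n / (q * q * 2 ^ m) = k at *
  generalize (q * q + 1) / 2 = a at *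
  have h10 : q * q * 2 ^ m * (k + 1) ≤ 2 * a * 2 ^ m * (2 * k) := by gcongr; omega
  rw [pow_add]
  nlinarith [Nat.mul_le_mul_left (2 ^ m * 2 ^ 2) key]

theorem main (r s : ℕ) (h1 : r ≤ s ^ 2) (h2 : 16 * s ≤ r) (hs : 0 < s) : ∀ᶠ n : ℕ in atTop,
    (g n r s : ℝ) ≤ (1 - Real.exp (-1026 * s ^ 2 / r)) * n := by
  set q := r / (16 * s) with hq
  have q0 : 0 < q := Nat.div_pos h2 (by omega)
  have q1 : q * (16 * s) ≤ r := Nat.div_mul_le_self _ _
  have q2 : r < 16 * s * (q + 1) := Nat.lt_mul_div_succ _ (by omega)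
  have q3 : q * q ≤ r := by nlinarith
  set m := r / (q * q) with hm
  have m0 : 0 < m := Nat.div_pos q3 (by positivity)
  have m1 : m * (q * q) ≤ r := Nat.div_mul_le_self _ _
  have m2 : r < q * q * (m + 1) := Nat.lt_mul_div_succ _ (by positivity)
  have m3 : 8 * s ≤ q * m := by
    refine Nat.le_of_mul_le_mul_left ?_ (show 0 < 2 * q by omega)
    nlinarith [Nat.mul_le_mul_left (q * q) (show m + 1 ≤ 2 * m by omega)]
  have m4 : m * r ≤ 1024 * s ^ 2 := by
    refine Nat.le_of_mul_le_mul_left ?_ (show 0 < r by omega)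
    have : r ≤ 32 * s * q := by nlinarith
    calc r * (m * r) = m * (r * r) := by ring
      _ ≤ m * ((32 * s * q) * (32 * s * q)) := by gcongr
      _ = m * (q * q) * (1024 * s ^ 2) := by ring
      _ ≤ r * (1024 * s ^ 2) := by gcongr
  refine (eventually_ge_atTop (q * q * 2 ^ m)).mono fun n hn => ?_
  have h3 : (2 : ℝ) ^ (m + 2) * g n r s + n ≤ 2 ^ (m + 2) * n := by
    exact_mod_cast comb n r s q m (by linarith) m3 m0 q0 hn
  have r0 : (0 : ℝ) < r := by exact_mod_cast (by omega : 0 < r)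
  have h4 : (2 : ℝ) ^ (m + 2) ≤ Real.exp (1026 * s ^ 2 / r) := by
    refine le_trans (pow_le_pow_left₀ (by norm_num) (show (2 : ℝ) ≤ Real.exp 1 by
      linarith [Real.add_one_le_exp 1]) _) ?_
    rw [← Real.exp_nat_mul, Real.exp_le_exp, le_div_iff₀ r0]
    have a1 : (m : ℝ) * r ≤ 1024 * s ^ 2 := by exact_mod_cast m4
    have a2 : (r : ℝ) ≤ s ^ 2 := by exact_mod_cast h1
    push_cast; nlinarith
  have h5 : Real.exp (-1026 * s ^ 2 / r) * 2 ^ (m + 2) ≤ 1 := by
    rw [neg_mul, neg_div, Real.exp_neg, inv_mul_le_iff₀ (Real.exp_pos _)]; simpa using h4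
  have h6 : (0 : ℝ) < 2 ^ (m + 2) := by positivity
  refine le_of_mul_le_mul_left ?_ h6
  nlinarith [mul_le_mul_of_nonneg_right h5 (Nat.cast_nonneg (α := ℝ) n)]

theorem result : ∃ C : ℝ, 0 < C ∧
    (∀ r s : ℕ, 0 < s → r ≤ s ^ 2 → 16 * s ≤ r → ∀ᶠ n : ℕ in atTop,
      (g n r s : ℝ) ≤ (1 - Real.exp (-C * s ^ 2 / r)) * n) ∧
    ∀ s : ℕ → ℕ, Tendsto (fun r : ℕ => (s r : ℝ) / √r) atTop atTop →
      Tendsto (fun r : ℕ => (s r : ℝ) / √(r * Real.logb 2 r)) atTop (𝓝 0) →
      ∀ᶠ r : ℕ in atTop, ∀ᶠ n : ℕ in atTop,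
        (g n r (s r) : ℝ) ≤ (1 - Real.exp (-C * (s r) ^ 2 / r)) * n := by
  refine ⟨1026, by norm_num, fun r s a b c => main r s b c a, fun s h1 h2 => ?_⟩
  have h3 := tendsto_natCast_atTop_atTop.eventually
    ((Real.isLittleO_logb_id_atTop (b := 2)).bound (show (0 : ℝ) < 1 / 256 by norm_num))
  filter_upwards [h1.eventually_ge_atTop 1, (tendsto_order.mp h2).2 1 one_pos, h3,
    eventually_ge_atTop 2] with r a b c d
  have r0 : (2 : ℝ) ≤ r := by exact_mod_cast d
  rw [le_div_iff₀ (Real.sqrt_pos.mpr (by linarith)), one_mul, Real.sqrt_le_left (by positivity)]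
    at a
  have l0 : 0 < Real.logb 2 r := Real.logb_pos (by norm_num) (by linarith)
  rw [div_lt_one (Real.sqrt_pos.mpr (by positivity)), Real.lt_sqrt (by positivity)] at b
  simp only [id, Real.norm_eq_abs, abs_of_pos l0, Nat.abs_cast] at c
  have e1 : r ≤ s r ^ 2 := by exact_mod_cast a
  have e2 : (16 * s r : ℝ) ≤ r := by
    refine le_of_sq_le_sq ?_ (by positivity)
    nlinarith
  exact main r (s r) e1 (by exact_mod_cast e2) (by
    rcases Nat.eq_zero_or_pos (s r) with h | h
    · rw [h] at e1; omega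
    · exact h)

end Pool.Agent.Results.MP_a018d0_co.Upper
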